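import Pool.Agent.H49.PQS.Fin

/-!
The basis of the class of permutations sortable by a pop stack, a queue and a stack in series.
-/

namespace Pool.Agent.Results.MP_a7b228_co.BasisHas108Permutations

open Pool.Agent.H49.PQS

/-- The class of PQS-sortable permutations is finitely based: its basis consists of exactly 108
permutations, each of length at most 9. -/
theorem result : Basis.Finite ∧ Basis.ncard = 108 ∧ ∀ σ ∈ Basis, σ.length ≤ 9 := by
  have h : Basis = ↑BL.toFinset := by
    rw [basis_eq]
    ext σ
    simp
  refine ⟨?_, ?_, ?_⟩
  · rw [h]
    exact Finset.finite_toSet _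
  · rw [h, Set.ncard_coe_finset, List.toFinset_card_of_nodup BL_nodup, BL_len]
  · intro σ hσ
    rw [basis_eq] at hσ
    have := List.all_eq_true.1 BL_le σ hσ
    simpa using this

end Pool.Agent.Results.MP_a7b228_co.BasisHas108Permutations
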